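import Mathlib

/-!
# The gadget graph of exact cover by 3-sets

`T` is the set of the triples, `X` the set of the elements, `comp t c` the `c`-th component of the
triple `t`.  The graph `gad comp` on `X ⊕ T × Fin 3 × Fin 3` is the graph of the well-known reduction
of exact cover by 3-sets to partition into triangles.
-/

set_option autoImplicit false

namespace Pool.Agent.T2H61.Ohf

/-- The graph has no odd hole: no induced cycle of odd length at least `4`. -/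
def OddHoleFree {V : Type} (G : SimpleGraph V) : Prop :=
  ∀ n : ℕ, Odd n → 4 ≤ n → IsEmpty (SimpleGraph.cycleGraph n ↪g G)

variable {T X : Type} (comp : T → Fin 3 → X)

/-- adjacency -/
def Ad : X ⊕ T × Fin 3 × Fin 3 → X ⊕ T × Fin 3 × Fin 3 → Prop
  | Sum.inl _, Sum.inl _ => False
  | Sum.inl x, Sum.inr (t, c, j) => j ≠ 2 ∧ comp t c = x
  | Sum.inr (t, c, j), Sum.inl x => j ≠ 2 ∧ comp t c = x
  | Sum.inr (t, c, j), Sum.inr (t', c', j') =>
    t = t' ∧ ((c = c' ∧ j ≠ j') ∨ (c ≠ c' ∧ j = 2 ∧ j' = 2))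

/-- The gadget graph. -/
def gad : SimpleGraph (X ⊕ T × Fin 3 × Fin 3) where
  Adj := Ad comp
  symm := ⟨by
    rintro (x | ⟨t, c, j⟩) (y | ⟨t', c', j'⟩) h
    · exact h
    · exact h
    · exact h
    · obtain ⟨rfl, h⟩ := h
      refine ⟨rfl, ?_⟩
      rcases h with ⟨h1, h2⟩ | ⟨h1, h2, h3⟩
      · exact Or.inl ⟨h1.symm, h2.symm⟩
      · exact Or.inr ⟨fun h => h1 h.symm, h3, h2⟩⟩
  loopless := ⟨by
    rintro (x | ⟨t, c, j⟩) h
    · exact h
    · rcases h.2 with h1 | h1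
      · exact h1.2 rfl
      · exact h1.1 rfl⟩

variable {comp}

theorem adj_ll {x y : X} : ¬ (gad comp).Adj (Sum.inl x) (Sum.inl y) := fun h => h

theorem adj_lr {x : X} {t : T} {c j : Fin 3} :
    (gad comp).Adj (Sum.inl x) (Sum.inr (t, c, j)) ↔ j ≠ 2 ∧ comp t c = x := Iff.rfl

theorem adj_rl {x : X} {t : T} {c j : Fin 3} :
    (gad comp).Adj (Sum.inr (t, c, j)) (Sum.inl x) ↔ j ≠ 2 ∧ comp t c = x := Iff.rfl

theorem adj_rr {t t' : T} {c c' j j' : Fin 3} :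
    (gad comp).Adj (Sum.inr (t, c, j)) (Sum.inr (t', c', j')) ↔
      t = t' ∧ ((c = c' ∧ j ≠ j') ∨ (c ≠ c' ∧ j = 2 ∧ j' = 2)) := Iff.rfl

/-- two different vertices which are not adjacent -/
def NA (comp : T → Fin 3 → X) (a b : X ⊕ T × Fin 3 × Fin 3) : Prop := a ≠ b ∧ ¬ (gad comp).Adj a b

section

variable (hinj : ∀ t, Function.Injective (comp t))

include hinj

/-- Two different neighbours of an element in the same triple are adjacent. -/
theorem nb_elt {x : X} {a b : X ⊕ T × Fin 3 × Fin 3} (ha : (gad comp).Adj (Sum.inl x) a)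
    (hb : (gad comp).Adj (Sum.inl x) b) (hab : NA comp a b) :
    ∃ t c j t' c' j', a = Sum.inr (t, c, j) ∧ b = Sum.inr (t', c', j') ∧ t ≠ t' := by
  rcases a with y | ⟨t, c, j⟩
  · exact absurd ha adj_ll
  rcases b with y | ⟨t', c', j'⟩
  · exact absurd hb adj_ll
  refine ⟨t, c, j, t', c', j', rfl, rfl, ?_⟩
  rintro rfl
  rw [adj_lr] at ha hb
  have h1 : c = c' := hinj t (ha.2.trans hb.2.symm)
  subst h1
  apply hab.2
  rw [adj_rr]
  refine ⟨rfl, Or.inl ⟨rfl, ?_⟩⟩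
  rintro rfl
  exact hab.1 rfl

/-- no element lies on an induced 5-cycle -/
theorem c5_elt {x : X} {a b c d : X ⊕ T × Fin 3 × Fin 3} (h1 : (gad comp).Adj (Sum.inl x) a)
    (h2 : (gad comp).Adj a b) (h3 : (gad comp).Adj b c) (h4 : (gad comp).Adj c d)
    (h5 : (gad comp).Adj d (Sum.inl x)) (n1 : NA comp a d) (n2 : NA comp (Sum.inl x) b)
    (n3 : NA comp (Sum.inl x) c) : False := by
  obtain ⟨t, e, j, t', e', j', rfl, rfl, htt⟩ := nb_elt hinj h1 h5.symm n1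
  rw [adj_lr] at h1
  rw [adj_rl] at h5
  rcases b with y | ⟨s, f, i⟩
  · rw [adj_rl] at h2
    exact n2.1 (by rw [← h1.2, h2.2])
  rcases c with y | ⟨s', f', i'⟩
  · rw [adj_lr] at h4
    exact n3.1 (by rw [← h5.2, h4.2])
  rw [adj_rr] at h2 h3 h4
  exact htt (h2.1.trans (h3.1.trans h4.1))

/-- the graph contains no induced 5-cycle -/
theorem no_c5 {a b c d e : X ⊕ T × Fin 3 × Fin 3} (h1 : (gad comp).Adj a b)
    (h2 : (gad comp).Adj b c) (h3 : (gad comp).Adj c d) (h4 : (gad comp).Adj d e)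
    (h5 : (gad comp).Adj e a) (n1 : NA comp a c) (n2 : NA comp b d) (n3 : NA comp c e)
    (n4 : NA comp d a) (n5 : NA comp e b) : False := by
  have sy : ∀ {u v}, NA comp u v → NA comp v u := fun h => ⟨h.1.symm, fun h' => h.2 h'.symm⟩
  rcases a with x | ⟨t, p, j⟩
  · exact c5_elt hinj h1 h2 h3 h4 h5 (sy n5) n1 (sy n4)
  rcases b with x | ⟨t2, p2, j2⟩
  · exact c5_elt hinj h2 h3 h4 h5 h1 (sy n1) n2 (sy n5)
  rcases c with x | ⟨t3, p3, j3⟩
  · exact c5_elt hinj h3 h4 h5 h1 h2 (sy n2) n3 (sy n1)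
  rcases d with x | ⟨t4, p4, j4⟩
  · exact c5_elt hinj h4 h5 h1 h2 h3 (sy n3) n4 (sy n2)
  rcases e with x | ⟨t5, p5, j5⟩
  · exact c5_elt hinj h5 h1 h2 h3 h4 (sy n4) n5 (sy n3)
  rw [adj_rr] at h1 h2 h3 h4 h5
  obtain ⟨rfl, h1⟩ := h1
  obtain ⟨rfl, h2⟩ := h2
  obtain ⟨rfl, h3⟩ := h3
  obtain ⟨rfl, h4⟩ := h4
  have n1' : (¬ ((p = p3 ∧ j ≠ j3) ∨ (p ≠ p3 ∧ j = 2 ∧ j3 = 2))) ∧ ¬ (p = p3 ∧ j = j3) :=
    ⟨fun h => n1.2 ⟨rfl, h⟩, fun h => n1.1 (by rw [h.1, h.2])⟩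
  have n2' : (¬ ((p2 = p4 ∧ j2 ≠ j4) ∨ (p2 ≠ p4 ∧ j2 = 2 ∧ j4 = 2))) ∧ ¬ (p2 = p4 ∧ j2 = j4) :=
    ⟨fun h => n2.2 ⟨rfl, h⟩, fun h => n2.1 (by rw [h.1, h.2])⟩
  have n4' : (¬ ((p4 = p ∧ j4 ≠ j) ∨ (p4 ≠ p ∧ j4 = 2 ∧ j = 2))) ∧ ¬ (p4 = p ∧ j4 = j) :=
    ⟨fun h => n4.2 ⟨rfl, h⟩, fun h => n4.1 (by rw [h.1, h.2])⟩
  have n5' : (¬ ((p5 = p2 ∧ j5 ≠ j2) ∨ (p5 ≠ p2 ∧ j5 = 2 ∧ j2 = 2))) ∧ ¬ (p5 = p2 ∧ j5 = j2) :=
    ⟨fun h => n5.2 ⟨rfl, h⟩, fun h => n5.1 (by rw [h.1, h.2])⟩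
  have h5' := h5.2
  clear n1 n2 n3 n4 n5 h5 sy hinj
  have key : ∀ p j p2 j2 p3 j3 p5 j5 : Fin 3,
      ((p = p2 ∧ j ≠ j2) ∨ (p ≠ p2 ∧ j = 2 ∧ j2 = 2)) →
      ((p5 = p ∧ j5 ≠ j) ∨ (p5 ≠ p ∧ j5 = 2 ∧ j = 2)) →
      ((¬ ((p5 = p2 ∧ j5 ≠ j2) ∨ (p5 ≠ p2 ∧ j5 = 2 ∧ j2 = 2))) ∧ ¬ (p5 = p2 ∧ j5 = j2)) →
      j = 2 := by
    intro p j p2 j2 p3 j3 p5 j5 h1 h2 h3
    by_contra hj
    rcases h1 with ⟨rfl, h1⟩ | ⟨_, h1, _⟩
    · rcases h2 with ⟨rfl, h2⟩ | ⟨_, _, h2⟩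
      · by_cases hh : j5 = j2
        · exact h3.2 ⟨rfl, hh⟩
        · exact h3.1 (Or.inl ⟨rfl, hh⟩)
      · exact hj h2
    · exact hj h1
  have k1 := key p j p2 j2 p2 j2 p5 j5 h1 h5' n5'
  have k3 := key p3 j3 p2 j2 p2 j2 p4 j4 (by
      rcases h2 with ⟨a1, a2⟩ | ⟨a1, a2, a3⟩
      · exact Or.inl ⟨a1.symm, a2.symm⟩
      · exact Or.inr ⟨fun h => a1 h.symm, a3, a2⟩) (by
      rcases h3 with ⟨a1, a2⟩ | ⟨a1, a2, a3⟩
      · exact Or.inl ⟨a1.symm, a2.symm⟩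
      · exact Or.inr ⟨fun h => a1 h.symm, a3, a2⟩) (by
      refine ⟨fun h => n2'.1 ?_, fun h => n2'.2 ⟨h.1.symm, h.2.symm⟩⟩
      rcases h with ⟨a1, a2⟩ | ⟨a1, a2, a3⟩
      · exact Or.inl ⟨a1.symm, a2.symm⟩
      · exact Or.inr ⟨fun h => a1 h.symm, a3, a2⟩)
  by_cases hh : p = p3
  · exact n1'.2 ⟨hh, k1.trans k3.symm⟩
  · exact n1'.1 (Or.inr ⟨hh, k1, k3⟩)

/-- the graph contains no induced gem -/
theorem no_gem {v a b c d : X ⊕ T × Fin 3 × Fin 3} (h1 : (gad comp).Adj v a)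
    (h2 : (gad comp).Adj v b) (h3 : (gad comp).Adj v c) (h4 : (gad comp).Adj v d)
    (e1 : (gad comp).Adj a b) (e2 : (gad comp).Adj b c) (e3 : (gad comp).Adj c d)
    (n1 : NA comp a c) (n2 : NA comp b d) (n3 : NA comp a d) : False := by
  rcases v with x | ⟨t, p, j⟩
  · obtain ⟨t1, c1, j1, t3, c3, j3, rfl, rfl, h⟩ := nb_elt hinj h1 h3 n1
    rcases b with y | ⟨t2, c2, j2⟩
    · exact absurd h2 adj_ll
    · rw [adj_rr] at e1 e2
      exact h (e1.1.trans e2.1)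
  · -- all the neighbours lie in the same gadget
    have hx : ∀ {w w' : X ⊕ T × Fin 3 × Fin 3}, (gad comp).Adj (Sum.inr (t, p, j)) w →
        (gad comp).Adj (Sum.inr (t, p, j)) w' → (∃ x, w = Sum.inl x) → (∃ x, w' = Sum.inl x) →
        w = w' := by
      rintro w w' k1 k2 ⟨x, rfl⟩ ⟨x', rfl⟩
      rw [adj_rl] at k1 k2
      rw [← k1.2, ← k2.2]
    by_cases hj : j = 2
    · have hg : ∀ {w : X ⊕ T × Fin 3 × Fin 3}, (gad comp).Adj (Sum.inr (t, p, j)) w →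
          ∃ c i, w = Sum.inr (t, c, i) ∧ ((p = c ∧ i ≠ 2) ∨ (p ≠ c ∧ i = 2)) := by
        rintro (y | ⟨s, c, i⟩) hw
        · exact absurd hj hw.1
        · rw [adj_rr] at hw
          obtain ⟨rfl, hw⟩ := hw
          refine ⟨c, i, rfl, ?_⟩
          rcases hw with ⟨a1, a2⟩ | ⟨a1, a2, a3⟩
          · exact Or.inl ⟨a1, fun h => a2 (hj.trans h.symm)⟩
          · exact Or.inr ⟨a1, a3⟩
      obtain ⟨c1, i1, rfl, k1⟩ := hg h1
      obtain ⟨c2, i2, rfl, k2⟩ := hg h2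
      obtain ⟨c3, i3, rfl, k3⟩ := hg h3
      rw [adj_rr] at e1 e2
      have e1' := e1.2
      have e2' := e2.2
      have n1' : (¬ ((c1 = c3 ∧ i1 ≠ i3) ∨ (c1 ≠ c3 ∧ i1 = 2 ∧ i3 = 2))) ∧ ¬ (c1 = c3 ∧ i1 = i3) :=
        ⟨fun h => n1.2 ⟨rfl, h⟩, fun h => n1.1 (by rw [h.1, h.2])⟩
      clear n1 n2 n3 e1 e2 e3 h1 h2 h3 h4 hx hg hinj
      rcases e1' with ⟨rfl, a1⟩ | ⟨a1, rfl, rfl⟩
      · rcases e2' with ⟨rfl, a2⟩ | ⟨a2, rfl, rfl⟩
        · rcases k1 with ⟨b1, b2⟩ | ⟨b1, b2⟩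
          · by_cases hh : i1 = i3
            · exact n1'.2 ⟨rfl, hh⟩
            · exact n1'.1 (Or.inl ⟨rfl, hh⟩)
          · by_cases hh : i1 = i3
            · exact n1'.2 ⟨rfl, hh⟩
            · exact n1'.1 (Or.inl ⟨rfl, hh⟩)
        · rcases k2 with ⟨b1, b2⟩ | ⟨b1, b2⟩
          · exact b2 rfl
          · rcases k1 with ⟨b3, b4⟩ | ⟨b3, b4⟩
            · exact b1 b3
            · exact a1 b4
      · rcases e2' with ⟨rfl, a2⟩ | ⟨a2, _, rfl⟩
        · rcases k2 with ⟨b1, b2⟩ | ⟨b1, b2⟩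
          · exact b2 rfl
          · rcases k3 with ⟨b3, b4⟩ | ⟨b3, b4⟩
            · exact b1 b3
            · exact a2 b4.symm
        · by_cases hh : c1 = c3
          · exact n1'.2 ⟨hh, rfl⟩
          · exact n1'.1 (Or.inr ⟨hh, rfl, rfl⟩)
    · -- only three neighbours
      have hg : ∀ {w : X ⊕ T × Fin 3 × Fin 3}, (gad comp).Adj (Sum.inr (t, p, j)) w →
          (∃ x, w = Sum.inl x) ∨ ∃ i, w = Sum.inr (t, p, i) ∧ i ≠ j := by
        rintro (y | ⟨s, c, i⟩) hw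
        · exact Or.inl ⟨y, rfl⟩
        · rw [adj_rr] at hw
          obtain ⟨rfl, hw⟩ := hw
          rcases hw with ⟨rfl, a2⟩ | ⟨a1, a2, a3⟩
          · exact Or.inr ⟨i, rfl, a2.symm⟩
          · exact absurd a2 hj
      have hgg : ∀ {w w' w'' : X ⊕ T × Fin 3 × Fin 3} ,
          (∃ i, w = Sum.inr (t, p, i) ∧ i ≠ j) → (∃ i, w' = Sum.inr (t, p, i) ∧ i ≠ j) →
          w ≠ w' → (gad comp).Adj w w' := by
        rintro w w' w'' ⟨i, rfl, hi⟩ ⟨i', rfl, hi'⟩ hne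
        rw [adj_rr]
        refine ⟨rfl, Or.inl ⟨rfl, ?_⟩⟩
        rintro rfl
        exact hne rfl
      -- `a, c, d` : `a` is adjacent to neither `c` nor `d`
      rcases hg h1 with ka | ka
      · rcases hg h3 with kc | kc
        · exact n1.1 (hx h1 h3 ka kc)
        · rcases hg h4 with kd | kd
          · exact n3.1 (hx h1 h4 ka kd)
          · rcases hg h2 with kb | kb
            · exact (e1.ne) (hx h1 h2 ka kb)
            · exact n2.2 (hgg (w'' := a) kb kd n2.1)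
      · rcases hg h3 with kc | kc
        · rcases hg h4 with kd | kd
          · exact e3.ne (hx h3 h4 kc kd)
          · exact n3.2 (hgg (w'' := a) ka kd n3.1)
        · exact n1.2 (hgg (w'' := a) ka kc n1.1)

/-- The complement of the gadget graph has no odd hole. -/
theorem compl_oddHoleFree : OddHoleFree (gad comp)ᶜ := by
  intro n hn hn4
  refine ⟨fun f => ?_⟩
  have hadj : ∀ i j : Fin n, i ≠ j → (¬ (SimpleGraph.cycleGraph n).Adj i j) →
      (gad comp).Adj (f i) (f j) := by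
    intro i j hij h
    by_contra h1
    apply h
    rw [← f.map_adj_iff, SimpleGraph.compl_adj]
    exact ⟨fun h2 => hij (f.injective h2), h1⟩
  have hna : ∀ i j : Fin n, (SimpleGraph.cycleGraph n).Adj i j → NA comp (f i) (f j) := by
    intro i j h
    rw [← f.map_adj_iff, SimpleGraph.compl_adj] at h
    exact h
  rcases Nat.lt_or_ge n 6 with h6 | h6
  · have h5 : n = 5 := by
      have : n = 4 ∨ n = 5 := by omega
      rcases this with rfl | rfl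
      · exact absurd hn (by decide)
      · rfl
    subst h5
    refine no_c5 hinj (a := f 0) (b := f 2) (c := f 4) (d := f 1) (e := f 3) ?_ ?_ ?_ ?_ ?_
      ?_ ?_ ?_ ?_ ?_
    · exact hadj _ _ (by decide) (by rw [SimpleGraph.cycleGraph_adj]; decide)
    · exact hadj _ _ (by decide) (by rw [SimpleGraph.cycleGraph_adj]; decide)
    · exact hadj _ _ (by decide) (by rw [SimpleGraph.cycleGraph_adj]; decide)
    · exact hadj _ _ (by decide) (by rw [SimpleGraph.cycleGraph_adj]; decide)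
    · exact hadj _ _ (by decide) (by rw [SimpleGraph.cycleGraph_adj]; decide)
    · exact hna _ _ (by rw [SimpleGraph.cycleGraph_adj]; decide)
    · exact hna _ _ (by rw [SimpleGraph.cycleGraph_adj]; decide)
    · exact hna _ _ (by rw [SimpleGraph.cycleGraph_adj]; decide)
    · exact hna _ _ (by rw [SimpleGraph.cycleGraph_adj]; decide)
    · exact hna _ _ (by rw [SimpleGraph.cycleGraph_adj]; decide)
  · have h7 : 7 ≤ n := by
      rcases Nat.lt_or_ge n 7 with h | h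
      · have : n = 6 := by omega
        subst this
        exact absurd hn (by decide)
      · exact h
    obtain ⟨m, rfl⟩ : ∃ m, n = m + 7 := ⟨n - 7, by omega⟩
    have hc : ∀ (a b : ℕ) (ha : a < m + 7) (hb : b < m + 7), a < b →
        ((SimpleGraph.cycleGraph (m + 7)).Adj ⟨a, ha⟩ ⟨b, hb⟩ ↔ b = a + 1 ∨ (a = 0 ∧ b = m + 6)) := by
      intro a b ha hb hab
      rw [SimpleGraph.cycleGraph_adj', Fin.sub_def, Fin.sub_def]
      simp only
      have e1 : (m + 7 - b + a) % (m + 7) = m + 7 - b + a := Nat.mod_eq_of_lt (by omega)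
      have e2 : (m + 7 - a + b) % (m + 7) = b - a := by
        rw [show m + 7 - a + b = (b - a) + (m + 7) by omega, Nat.add_mod_right]
        exact Nat.mod_eq_of_lt (by omega)
      rw [e1, e2]
      omega
    refine no_gem hinj (v := f ⟨0, by omega⟩) (a := f ⟨3, by omega⟩) (b := f ⟨5, by omega⟩)
      (c := f ⟨2, by omega⟩) (d := f ⟨4, by omega⟩) ?_ ?_ ?_ ?_ ?_ ?_ ?_ ?_ ?_ ?_
    · exact hadj _ _ (by simp) (by rw [hc _ _ _ _ (by omega)]; omega)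
    · exact hadj _ _ (by simp) (by rw [hc _ _ _ _ (by omega)]; omega)
    · exact hadj _ _ (by simp) (by rw [hc _ _ _ _ (by omega)]; omega)
    · exact hadj _ _ (by simp) (by rw [hc _ _ _ _ (by omega)]; omega)
    · exact hadj _ _ (by simp) (by rw [hc _ _ _ _ (by omega)]; omega)
    · exact (hadj _ _ (by simp) (by rw [hc _ _ _ _ (by omega)]; omega)).symm
    · exact hadj _ _ (by simp) (by rw [hc _ _ _ _ (by omega)]; omega)
    · exact ⟨((hna _ _ ((hc 2 3 (by omega) (by omega) (by omega)).2 (by omega))).1).symm,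
        fun h => (hna _ _ ((hc 2 3 (by omega) (by omega) (by omega)).2 (by omega))).2 h.symm⟩
    · exact ⟨((hna _ _ ((hc 4 5 (by omega) (by omega) (by omega)).2 (by omega))).1).symm,
        fun h => (hna _ _ ((hc 4 5 (by omega) (by omega) (by omega)).2 (by omega))).2 h.symm⟩
    · exact hna _ _ ((hc 3 4 (by omega) (by omega) (by omega)).2 (by omega))

end

end Pool.Agent.T2H61.Ohf
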