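import Pool.Agent.T2H61.Ohf.Abs

/-!
# Colourings of the complement of the gadget graph with a third of the number of vertices as colours
-/

set_option autoImplicit false

namespace Pool.Agent.T2H61.Ohf

variable {T X : Type} {comp : T → Fin 3 → X}

/-- Some of the triples cover every element exactly once. -/
def Cover (comp : T → Fin 3 → X) : Prop :=
  ∃ sel : T → Prop, ∀ x, ∃! t, sel t ∧ ∃ c, comp t c = x

section

variable (hinj : ∀ t, Function.Injective (comp t))

include hinj

/-- no clique of size `4` -/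
theorem no_k4 {a b c d : X ⊕ T × Fin 3 × Fin 3} (h1 : (gad comp).Adj a b)
    (h2 : (gad comp).Adj a c) (h3 : (gad comp).Adj a d) (h4 : (gad comp).Adj b c)
    (h5 : (gad comp).Adj b d) (h6 : (gad comp).Adj c d) : False := by
  have key : ∀ {x : X} {a b c : X ⊕ T × Fin 3 × Fin 3}, (gad comp).Adj (Sum.inl x) a →
      (gad comp).Adj (Sum.inl x) b → (gad comp).Adj (Sum.inl x) c → (gad comp).Adj a b →
      (gad comp).Adj a c → (gad comp).Adj b c → False := by
    rintro x (y | ⟨t, p, j⟩) (y' | ⟨t', p', j'⟩) (y'' | ⟨t'', p'', j''⟩) k1 k2 k3 k4 k5 k6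
    all_goals first
      | exact absurd k1 adj_ll
      | exact absurd k2 adj_ll
      | exact absurd k3 adj_ll
      | skip
    rw [adj_lr] at k1 k2 k3
    rw [adj_rr] at k4 k5 k6
    obtain ⟨rfl, k4⟩ := k4
    obtain ⟨rfl, k5⟩ := k5
    have e1 : p = p' := hinj t (k1.2.trans k2.2.symm)
    have e2 : p = p'' := hinj t (k1.2.trans k3.2.symm)
    subst e1 e2
    have f1 : j ≠ j' := by
      rcases k4 with h | h
      · exact h.2
      · exact absurd rfl h.1
    have f2 : j ≠ j'' := by
      rcases k5 with h | h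
      · exact h.2
      · exact absurd rfl h.1
    have f3 : j' ≠ j'' := by
      rcases k6.2 with h | h
      · exact h.2
      · exact absurd rfl h.1
    have g1 := k1.1
    have g2 := k2.1
    have g3 := k3.1
    clear k1 k2 k3 k4 k5 k6
    omega
  rcases a with x | ⟨t, p, j⟩
  · exact key h1 h2 h3 h4 h5 h6
  rcases b with x | ⟨t2, p2, j2⟩
  · exact key h1.symm h4 h5 h2 h3 h6
  rcases c with x | ⟨t3, p3, j3⟩
  · exact key h2.symm h4.symm h6 h1 h3 h5
  rcases d with x | ⟨t4, p4, j4⟩
  · exact key h3.symm h5.symm h6.symm h1 h2 h4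
  rw [adj_rr] at h1 h2 h3 h4 h5 h6
  have h1 := h1.2
  have h2 := h2.2
  have h3 := h3.2
  have h4 := h4.2
  have h5 := h5.2
  have h6 := h6.2
  clear key hinj
  rcases h1 with h1 | h1
  · rcases h2 with h2 | h2
    · rcases h3 with h3 | h3
      · omega
      · omega
    · omega
  · omega

end

/-- A relation of having the same colour, in a colouring of the complement all of whose colour
classes have exactly three elements. -/
theorem cover_of_col {K : Type} (C : X ⊕ T × Fin 3 × Fin 3 → K)
    (hC : ∀ a b, a ≠ b → C a = C b → (gad comp).Adj a b)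
    (h3 : ∀ a, ∃ b c, b ≠ a ∧ c ≠ a ∧ b ≠ c ∧ C b = C a ∧ C c = C a) : Cover comp := by
  -- the vertex with index 0 and the vertex with index 1 have the same colour
  have hA : ∀ t c, C (Sum.inr (t, c, 1)) = C (Sum.inr (t, c, 0)) ∧
      (C (Sum.inr (t, c, 2)) = C (Sum.inr (t, c, 0)) ∨
        C (Sum.inl (comp t c)) = C (Sum.inr (t, c, 0))) := by
    intro t c
    obtain ⟨v, w, hv, hw, hvw, h1, h2⟩ := h3 (Sum.inr (t, c, 0))
    have a1 := hC _ _ hv h1
    have a2 := hC _ _ hw h2
    have a3 := hC _ _ hvw (h1.trans h2.symm)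
    have cases1 : ∀ v : X ⊕ T × Fin 3 × Fin 3, (gad comp).Adj v (Sum.inr (t, c, 0)) →
        v = Sum.inl (comp t c) ∨ v = Sum.inr (t, c, 1) ∨ v = Sum.inr (t, c, 2) := by
      rintro (x | ⟨s, d, i⟩) hh
      · rw [adj_lr] at hh
        exact Or.inl (by rw [hh.2])
      · rw [adj_rr] at hh
        obtain ⟨rfl, hh⟩ := hh
        rcases hh with ⟨rfl, hi⟩ | ⟨_, _, hi⟩
        · have : i = 1 ∨ i = 2 := by omega
          rcases this with rfl | rfl
          · exact Or.inr (Or.inl rfl)
          · exact Or.inr (Or.inr rfl)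
        · exact absurd hi (by decide)
    rcases cases1 v a1 with rfl | rfl | rfl
    · rcases cases1 w a2 with rfl | rfl | rfl
      · exact absurd rfl hvw
      · exact ⟨h2, Or.inr h1⟩
      · exact absurd rfl a3.1
    · rcases cases1 w a2 with rfl | rfl | rfl
      · exact ⟨h1, Or.inr h2⟩
      · exact absurd rfl hvw
      · exact ⟨h1, Or.inl h2⟩
    · rcases cases1 w a2 with rfl | rfl | rfl
      · exact absurd rfl a3.1
      · exact ⟨h2, Or.inl h1⟩
      · exact absurd rfl hvw
  -- not both
  have hB : ∀ t c, C (Sum.inr (t, c, 2)) = C (Sum.inr (t, c, 0)) →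
      C (Sum.inl (comp t c)) = C (Sum.inr (t, c, 0)) → False := by
    intro t c h1 h2
    have := hC (Sum.inl (comp t c)) (Sum.inr (t, c, 2)) (by simp) (h2.trans h1.symm)
    exact this.1 rfl
  -- all three components behave in the same way
  have hD : ∀ t c c', C (Sum.inl (comp t c)) = C (Sum.inr (t, c, 0)) →
      C (Sum.inl (comp t c')) = C (Sum.inr (t, c', 0)) := by
    intro t c c' h
    by_cases hcc : c = c'
    · subst hcc
      exact h
    rcases (hA t c').2 with h' | h'
    swap
    · exact h'
    exfalso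
    have hne : C (Sum.inr (t, c, 2)) ≠ C (Sum.inr (t, c, 0)) := fun h2 => hB t c h2 h
    -- the class of `(t, c, 2)`
    obtain ⟨v, w, hv, hw, hvw, h1, h2⟩ := h3 (Sum.inr (t, c, 2))
    have cases1 : ∀ v : X ⊕ T × Fin 3 × Fin 3, v ≠ Sum.inr (t, c, 2) →
        C v = C (Sum.inr (t, c, 2)) → ∃ d, d ≠ c ∧ v = Sum.inr (t, d, 2) := by
      rintro (x | ⟨s, d, i⟩) hv hh
      · have := hC _ _ hv hh
        exact absurd rfl this.1
      · have h7 := hC _ _ hv hh
        rw [adj_rr] at h7
        obtain ⟨rfl, h7⟩ := h7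
        rcases h7 with ⟨rfl, hi⟩ | ⟨hd, hi, _⟩
        · exfalso
          have : i = 0 ∨ i = 1 := by omega
          rcases this with rfl | rfl
          · exact hne hh.symm
          · exact hne (hh.symm.trans (hA s d).1)
        · subst hi
          exact ⟨d, hd, rfl⟩
    obtain ⟨d, hd, rfl⟩ := cases1 v hv h1
    obtain ⟨e, he, rfl⟩ := cases1 w hw h2
    have hde : d ≠ e := fun h => hvw (by rw [h])
    have hc' : C (Sum.inr (t, c', 2)) = C (Sum.inr (t, c, 2)) := by
      have : c' = d ∨ c' = e := by omega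
      rcases this with rfl | rfl
      · exact h1
      · exact h2
    have h8 := hC (Sum.inr (t, c, 2)) (Sum.inr (t, c', 0)) (by simp) (hc'.symm.trans h')
    rw [adj_rr] at h8
    rcases h8.2 with h9 | h9
    · exact hcc h9.1
    · exact absurd h9.2.2 (by decide)
  refine ⟨fun t => C (Sum.inl (comp t 0)) = C (Sum.inr (t, 0, 0)), fun x => ?_⟩
  obtain ⟨v, w, hv, hw, hvw, h1, h2⟩ := h3 (Sum.inl x)
  have a1 := hC _ _ hv h1
  rcases v with y | ⟨t, c, j⟩
  · exact absurd a1 adj_ll
  rw [adj_rl] at a1
  obtain ⟨hj, rfl⟩ := a1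
  have hx : C (Sum.inl (comp t c)) = C (Sum.inr (t, c, 0)) := by
    have : j = 0 ∨ j = 1 := by omega
    rcases this with rfl | rfl
    · exact h1.symm
    · exact h1.symm.trans (hA t c).1
  refine ⟨t, ⟨hD t c 0 hx, c, rfl⟩, ?_⟩
  rintro t' ⟨h4, c', h5⟩
  have h6 := hD t' 0 c' h4
  rw [h5, hx] at h6
  by_contra hne
  have h7 := hC (Sum.inr (t, c, 0)) (Sum.inr (t', c', 0)) (by
    intro h
    have := Sum.inr_injective h
    simp only [Prod.mk.injEq] at this
    exact hne this.1.symm) h6
  rw [adj_rr] at h7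
  exact hne h7.1.symm

section Count

variable [Fintype T] [Fintype X]

open Classical in
theorem cover_of_colorable (hinj : ∀ t, Function.Injective (comp t)) {k : ℕ}
    (hk : Fintype.card X + 9 * Fintype.card T = 3 * k) (h : (gad comp)ᶜ.Colorable k) :
    Cover comp := by
  obtain ⟨C⟩ := h
  have hC : ∀ a b, a ≠ b → C a = C b → (gad comp).Adj a b := by
    intro a b hab h
    by_contra h1
    exact C.valid ((SimpleGraph.compl_adj _ _ _).2 ⟨hab, h1⟩) h
  have hle : ∀ i ∈ (Finset.univ : Finset (Fin k)),
      (Finset.univ.filter (fun v => C v = i)).card ≤ 3 := by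
    intro i _
    by_contra hlt
    push Not at hlt
    obtain ⟨S, hS, hcard⟩ := Finset.exists_subset_card_eq (Nat.succ_le_of_lt hlt)
    obtain ⟨a, S1, ha, rfl, hS1⟩ := Finset.card_eq_succ.1 hcard
    obtain ⟨b, c, d, hbc, hbd, hcd, rfl⟩ := Finset.card_eq_three.1 hS1
    have hmem : ∀ v ∈ insert a ({b, c, d} : Finset (X ⊕ T × Fin 3 × Fin 3)), C v = i := fun v hv => (Finset.mem_filter.1 (hS hv)).2
    have ca := hmem a (by simp)
    have cb := hmem b (by simp)
    have cc := hmem c (by simp)
    have cd := hmem d (by simp)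
    simp only [Finset.mem_insert, Finset.mem_singleton, not_or] at ha
    exact no_k4 hinj (hC a b ha.1 (ca.trans cb.symm)) (hC a c ha.2.1 (ca.trans cc.symm))
      (hC a d ha.2.2 (ca.trans cd.symm)) (hC b c hbc (cb.trans cc.symm))
      (hC b d hbd (cb.trans cd.symm)) (hC c d hcd (cc.trans cd.symm))
  have hsum : ∑ i : Fin k, (Finset.univ.filter (fun v => C v = i)).card =
      ∑ _i : Fin k, 3 := by
    have h1 := Finset.card_eq_sum_card_fiberwise (f := fun v => C v) (s := Finset.univ)
      (t := (Finset.univ : Finset (Fin k))) (fun _ _ => Finset.mem_coe.2 (Finset.mem_univ _))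
    rw [← h1, Finset.card_univ, Finset.sum_const, Finset.card_univ, Fintype.card_sum,
      Fintype.card_prod, Fintype.card_prod, Fintype.card_fin, Fintype.card_fin, smul_eq_mul]
    omega
  have heq := (Finset.sum_eq_sum_iff_of_le hle).1 hsum
  refine cover_of_col C hC fun a => ?_
  have h1 := heq (C a) (Finset.mem_univ _)
  have ha : a ∈ Finset.univ.filter (fun v => C v = C a) := by simp
  have h2 : ((Finset.univ.filter (fun v => C v = C a)).erase a).card = 2 := by
    rw [Finset.card_erase_of_mem ha, h1]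
  obtain ⟨b, c, hbc, h4⟩ := Finset.card_eq_two.1 h2
  have hb : b ∈ (Finset.univ.filter (fun v => C v = C a)).erase a := by rw [h4]; simp
  have hc : c ∈ (Finset.univ.filter (fun v => C v = C a)).erase a := by rw [h4]; simp
  rw [Finset.mem_erase, Finset.mem_filter] at hb hc
  exact ⟨b, c, hb.1, hc.1, hbc, hb.2.2, hc.2.2⟩

open Classical in
theorem colorable_of_cover (hinj : ∀ t, Function.Injective (comp t)) {k : ℕ}
    (hk : Fintype.card X + 9 * Fintype.card T = 3 * k) (h : Cover comp) :
    (gad comp)ᶜ.Colorable k := by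
  obtain ⟨sel, hsel⟩ := h
  choose tx htx huniq using hsel
  have htx' : ∀ x, ∃ c, comp (tx x) c = x := fun x => (htx x).2
  choose cx hcx using htx'
  -- the colours
  let col : X ⊕ T × Fin 3 × Fin 3 → (T × Fin 3) ⊕ {t // sel t} := fun v =>
    match v with
    | Sum.inl x => Sum.inl (tx x, cx x)
    | Sum.inr (t, c, j) =>
      if h : j = 2 ∧ sel t then Sum.inr ⟨t, h.2⟩ else Sum.inl (t, c)
  have hcard : Fintype.card ((T × Fin 3) ⊕ {t // sel t}) = k := by
    have e : X ≃ {t // sel t} × Fin 3 :=
      { toFun := fun x => (⟨tx x, (htx x).1⟩, cx x)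
        invFun := fun p => comp p.1 p.2
        left_inv := fun x => hcx x
        right_inv := by
          rintro ⟨⟨t, ht⟩, c⟩
          have h1 : tx (comp t c) = t := (huniq (comp t c) t ⟨ht, c, rfl⟩).symm
          have h2 : cx (comp t c) = c := by
            apply hinj t
            have := hcx (comp t c)
            rw [h1] at this
            exact this
          simp only [Prod.mk.injEq, Subtype.mk.injEq]
          exact ⟨h1, h2⟩ }
    have h1 := Fintype.card_congr e
    rw [Fintype.card_prod, Fintype.card_fin] at h1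
    rw [Fintype.card_sum, Fintype.card_prod, Fintype.card_fin]
    omega
  have C : (gad comp)ᶜ.Coloring ((T × Fin 3) ⊕ {t // sel t}) := by
    refine SimpleGraph.Coloring.mk col ?_
    have main : ∀ a b, a ≠ b → col a = col b → (gad comp).Adj a b := by
      rintro (x | ⟨t, c, j⟩) (y | ⟨t', c', j'⟩) hab h
      · exfalso
        apply hab
        simp only [col, Sum.inl.injEq, Prod.mk.injEq] at h
        rw [← hcx x, ← hcx y, h.1, h.2]
      · simp only [col] at h
        split_ifs at h with h1
        simp only [Sum.inl.injEq, Prod.mk.injEq] at h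
        obtain ⟨h2, h3⟩ := h
        rw [adj_lr]
        subst h2 h3
        refine ⟨fun h4 => h1 ⟨h4, (htx x).1⟩, hcx x⟩
      · simp only [col] at h
        split_ifs at h with h1
        simp only [Sum.inl.injEq, Prod.mk.injEq] at h
        obtain ⟨h2, h3⟩ := h
        rw [adj_rl]
        subst h2 h3
        refine ⟨fun h4 => h1 ⟨h4, (htx y).1⟩, hcx y⟩
      · rw [adj_rr]
        simp only [col] at h
        split_ifs at h with h1 h2 h2
        · simp only [Sum.inr.injEq, Subtype.mk.injEq] at h
          subst h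
          refine ⟨rfl, Or.inr ⟨fun h4 => hab ?_, h1.1, h2.1⟩⟩
          rw [h4, h1.1, h2.1]
        · simp only [Sum.inl.injEq, Prod.mk.injEq] at h
          obtain ⟨rfl, rfl⟩ := h
          refine ⟨rfl, Or.inl ⟨rfl, fun h4 => hab ?_⟩⟩
          rw [h4]
    intro a b hab h
    rw [SimpleGraph.compl_adj] at hab
    exact hab.2 (main a b hab.1 h)
  have := C.colorable
  rwa [hcard] at this

/-- The complement of the gadget graph can be coloured with a third of the number of vertices as
the number of colours if and only if there is an exact cover. -/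
theorem colorable_iff (hinj : ∀ t, Function.Injective (comp t)) {k : ℕ}
    (hk : Fintype.card X + 9 * Fintype.card T = 3 * k) :
    (gad comp)ᶜ.Colorable k ↔ Cover comp :=
  ⟨cover_of_colorable hinj hk, colorable_of_cover hinj hk⟩

end Count

end Pool.Agent.T2H61.Ohf
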