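import Pool.Agent.T2H61.Ohf.Col
import Pool.Agent.H632R2.X3C
import Pool.Agent.H692R2.FinGraph
import Pool.Agent.H671R2.PolyAuto
import Pool.Agent.H612.CollectPoly
import Pool.Agent.NPC.Dec
import Pool.Agent.NPC.Classes

/-!
# The reduction from exact cover by 3-sets
-/

set_option autoImplicit false

namespace Pool.Agent.T2H61.Ohf

open Pool.Agent.NPC Pool.Agent.NPC.H632 Pool.Agent.H692R2

/-- components of a triple -/
def cmp (s : ℕ × ℕ × ℕ) (c : ℕ) : ℕ := bif decide (c = 0) then s.1 else bif decide (c = 1) then s.2.1 else s.2.2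

/-- the size of the universe, cut to the number of triples -/
def cut (I : List (ℕ × ℕ × ℕ) × ℕ) : ℕ := min I.2 I.1.length

/-- number of vertices -/
def nv (I : List (ℕ × ℕ × ℕ) × ℕ) : ℕ := 3 * cut I + I.1.length * 9

/-- element and gadget vertex -/
def r1 (I : List (ℕ × ℕ × ℕ) × ℕ) (u v : ℕ) : Bool :=
  decide (u < 3 * cut I) && (!decide (v < 3 * cut I) && (!decide ((v - 3 * cut I) % 3 = 2) &&
    decide (cmp (I.1.getD ((v - 3 * cut I) / 9) (0, 0, 0)) ((v - 3 * cut I) / 3 % 3) = u)))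

/-- gadget vertices -/
def r2 (I : List (ℕ × ℕ × ℕ) × ℕ) (u v : ℕ) : Bool :=
  !decide (u < 3 * cut I) && (!decide (v < 3 * cut I) &&
    (decide ((u - 3 * cut I) / 9 = (v - 3 * cut I) / 9) &&
      ((decide ((u - 3 * cut I) / 3 % 3 = (v - 3 * cut I) / 3 % 3) &&
        !decide ((u - 3 * cut I) % 3 = (v - 3 * cut I) % 3)) ||
       (!decide ((u - 3 * cut I) / 3 % 3 = (v - 3 * cut I) / 3 % 3) &&
        (decide ((u - 3 * cut I) % 3 = 2) && decide ((v - 3 * cut I) % 3 = 2))))))

/-- adjacency of the complement -/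
def bb (I : List (ℕ × ℕ × ℕ) × ℕ) (u v : ℕ) : Bool :=
  !decide (u = v) && !((r1 I u v || r1 I v u) || (r2 I u v || r2 I v u))

/-- the graph of the reduction -/
def gr (I : List (ℕ × ℕ × ℕ) × ℕ) : SimpleGraph (Fin (nv I)) where
  Adj i j := bb I i j = true
  symm := ⟨fun i j h => by
    have e : bb I (j : ℕ) (i : ℕ) = bb I (i : ℕ) (j : ℕ) := by
      unfold bb
      rw [Bool.or_comm (r1 I j i), Bool.or_comm (r2 I j i)]
      have e1 : decide ((j : ℕ) = i) = decide ((i : ℕ) = j) := by
        rw [decide_eq_decide]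
        exact eq_comm
      rw [e1]
    rw [e]
    exact h⟩
  loopless := ⟨fun i h => by
    unfold bb at h
    simp at h⟩

/-- the reduction -/
def red (I : List (ℕ × ℕ × ℕ) × ℕ) : FinGraph × ℕ := (⟨nv I, gr I⟩, cut I + 3 * I.1.length)

section

variable {α : Type} [TEnc α]

@[fun_prop]
theorem poly_cmp {f : α → ℕ × ℕ × ℕ} {g : α → ℕ} (hf : Poly f) (hg : Poly g) :
    Poly (fun a => cmp (f a) (g a)) := by
  unfold cmp
  fun_prop

@[fun_prop]
theorem poly_cut {f : α → List (ℕ × ℕ × ℕ) × ℕ} (hf : Poly f) : Poly (fun a => cut (f a)) := by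
  unfold cut
  fun_prop

@[fun_prop]
theorem poly_bb {f : α → List (ℕ × ℕ × ℕ) × ℕ} {g h : α → ℕ} (hf : Poly f) (hg : Poly g)
    (hh : Poly h) : Poly (fun a => bb (f a) (g a) (h a)) := by
  unfold bb r1 r2
  fun_prop

theorem uPoly_nv : UPoly nv := by
  have h : UPoly (fun I : List (ℕ × ℕ × ℕ) × ℕ => 12 * I.1.length) :=
    UPoly.mul (UPoly.const 12) (UPoly.length (Poly.fst Poly.id))
  refine UPoly.of_le ?_ h ?_
  · unfold nv
    fun_prop
  · intro I
    unfold nv cut
    omega

theorem poly_red : Poly red := by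
  unfold red
  refine Poly.pair ?_ (by fun_prop)
  exact poly_finGraph (N := nv) (b := bb) (G := gr) uPoly_nv (by fun_prop) fun a i j => Iff.rfl

end

/-! ### Correctness -/

section

variable {S : List (ℕ × ℕ × ℕ)} {q : ℕ}

theorem mem_el {s : ℕ × ℕ × ℕ} {x : ℕ} : x ∈ el s ↔ ∃ c : Fin 3, cmp s c = x := by
  unfold el
  simp only [List.mem_cons, List.not_mem_nil, or_false]
  constructor
  · rintro (h | h | h)
    · exact ⟨0, h.symm⟩
    · exact ⟨1, h.symm⟩
    · exact ⟨2, h.symm⟩
  · rintro ⟨c, h⟩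
    fin_cases c
    · exact Or.inl h.symm
    · exact Or.inr (Or.inl h.symm)
    · exact Or.inr (Or.inr h.symm)

/-- the components as elements of `Fin` -/
def cp (S : List (ℕ × ℕ × ℕ)) (q : ℕ) (h : ∀ t ∈ S, ∀ x ∈ el t, x < 3 * q) (t : Fin S.length)
    (c : Fin 3) : Fin (3 * q) :=
  ⟨cmp S[t] c, h _ (List.getElem_mem t.2) _ (mem_el.2 ⟨c, rfl⟩)⟩

theorem cp_inj (h : ∀ t ∈ S, ∀ x ∈ el t, x < 3 * q) (h2 : ∀ t ∈ S, (el t).Nodup)
    (t : Fin S.length) : Function.Injective (cp S q h t) := by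
  have h3 := h2 _ (List.getElem_mem t.2)
  unfold el at h3
  simp only [List.nodup_cons, List.mem_cons, List.not_mem_nil, or_false, not_or, List.nodup_nil,
    not_false_eq_true, and_true] at h3
  intro c c' hc
  have hc' : cmp S[t] c = cmp S[t] c' := congrArg Fin.val hc
  obtain ⟨⟨a1, a2⟩, a3⟩ := h3
  fin_cases c <;> fin_cases c'
  · rfl
  · exact absurd hc' a1
  · exact absurd hc' a2
  · exact absurd hc'.symm a1
  · rfl
  · exact absurd hc' a3
  · exact absurd hc'.symm a2
  · exact absurd hc'.symm a3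
  · rfl

open Classical in
theorem xc_iff (h : ∀ t ∈ S, ∀ x ∈ el t, x < 3 * q) (h2 : ∀ t ∈ S, (el t).Nodup) :
    XC S (List.range (3 * q)) ↔ Cover (cp S q h) := by
  constructor
  · rintro ⟨C, hCS, hC⟩
    have hnd : (C.flatMap el).Nodup := hC.nodup_iff.2 List.nodup_range
    have hdis : ∀ s ∈ C, ∀ s' ∈ C, s ≠ s' → ∀ x, x ∈ el s → x ∈ el s' → False := by
      intro s hs s' hs' hne x hx hx'
      have h4 := (List.nodup_flatMap.1 hnd).2
      have : Std.Symm (Function.onFun List.Disjoint (el : ℕ × ℕ × ℕ → List ℕ)) :=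
        ⟨fun a b h => List.Disjoint.symm h⟩
      have h5 := h4.forall hs hs' hne
      exact h5 hx hx'
    refine ⟨fun t => S[t] ∈ C ∧ ∀ t' : Fin S.length, S[t'] = S[t] → t ≤ t', fun x => ?_⟩
    have hx : (x : ℕ) ∈ C.flatMap el := hC.mem_iff.2 (List.mem_range.2 x.2)
    obtain ⟨s, hs, hxs⟩ := List.mem_flatMap.1 hx
    obtain ⟨c, hc⟩ := mem_el.1 hxs
    -- the first index of `s`
    obtain ⟨i, hi, his⟩ := List.getElem_of_mem (hCS s hs)
    have hex : (Finset.univ.filter (fun t : Fin S.length => S[t] = s)).Nonempty :=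
      ⟨⟨i, hi⟩, Finset.mem_filter.2 ⟨Finset.mem_univ _, his⟩⟩
    obtain ⟨t, htm, htmin'⟩ := Finset.exists_min_image _ (fun t => t) hex
    have ht : S[t] = s := (Finset.mem_filter.1 htm).2
    have htmin : ∀ t' : Fin S.length, S[t'] = s → t ≤ t' := fun t' ht' =>
      htmin' _ (Finset.mem_filter.2 ⟨Finset.mem_univ _, ht'⟩)
    refine ⟨t, ⟨⟨ht ▸ hs, fun t' ht' => htmin t' (ht'.trans ht)⟩, c, ?_⟩, ?_⟩
    · apply Fin.ext
      change cmp S[t] c = x
      rw [ht]
      exact hc
    · rintro t' ⟨⟨h5, h6⟩, c', hc'⟩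
      have h7 : cmp S[t'] c' = x := congrArg Fin.val hc'
      have h8 : S[t'] = s := by
        by_contra hne
        exact hdis _ h5 _ hs hne x (mem_el.2 ⟨c', h7⟩) hxs
      exact le_antisymm (h6 t (ht.trans h8.symm)) (htmin t' h8)
  · rintro ⟨sel, hsel⟩
    refine ⟨((List.finRange S.length).filter (fun t => decide (sel t))).map (fun t => S[t]), ?_, ?_⟩
    · intro s hs
      obtain ⟨t, _, rfl⟩ := List.mem_map.1 hs
      exact List.getElem_mem t.2
    · refine (List.perm_ext_iff_of_nodup ?_ List.nodup_range).2 ?_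
      · rw [List.flatMap_map, List.nodup_flatMap]
        refine ⟨fun t _ => h2 _ (List.getElem_mem t.2), ?_⟩
        have h3 : ((List.finRange S.length).filter (fun t => decide (sel t))).Pairwise
            (fun a b => a ≠ b) := (List.nodup_finRange _).filter _
        refine (List.Pairwise.and_mem.1 h3).imp ?_
        intro t t' ⟨h4, h5, h6⟩ x hx hx'
        obtain ⟨c, hc⟩ := mem_el.1 hx
        obtain ⟨c', hc'⟩ := mem_el.1 hx'
        have h7 : sel t := by simpa using (List.mem_filter.1 h4).2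
        have h8 : sel t' := by simpa using (List.mem_filter.1 h5).2
        have hx3 : x < 3 * q := h _ (List.getElem_mem t.2) _ hx
        obtain ⟨t0, _, h9⟩ := hsel ⟨x, hx3⟩
        have e1 := h9 t ⟨h7, c, Fin.ext hc⟩
        have e2 := h9 t' ⟨h8, c', Fin.ext hc'⟩
        exact h6 (e1.trans e2.symm)
      · intro x
        rw [List.mem_range]
        constructor
        · intro hx
          obtain ⟨s, hs, hxs⟩ := List.mem_flatMap.1 hx
          obtain ⟨t, _, rfl⟩ := List.mem_map.1 hs
          exact h _ (List.getElem_mem t.2) _ hxs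
        · intro hx
          obtain ⟨t, ⟨h7, c, hc⟩, _⟩ := hsel ⟨x, hx⟩
          refine List.mem_flatMap.2 ⟨S[t], List.mem_map.2 ⟨t, ?_, rfl⟩, mem_el.2 ⟨c, ?_⟩⟩
          · rw [List.mem_filter]
            exact ⟨List.mem_finRange _, by simpa using h7⟩
          · exact congrArg Fin.val hc

/-- the numbering of the vertices -/
def num (m n : ℕ) : Fin n ⊕ Fin m × Fin 3 × Fin 3 ≃ Fin (n + m * 9) :=
  (Equiv.sumCongr (Equiv.refl _) ((Equiv.prodCongr (Equiv.refl _) finProdFinEquiv).trans
    finProdFinEquiv)).trans finSumFinEquiv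

theorem num_inl {m n : ℕ} (x : Fin n) : (num m n (Sum.inl x) : ℕ) = x := rfl

theorem num_inr {m n : ℕ} (t : Fin m) (c j : Fin 3) :
    (num m n (Sum.inr (t, c, j)) : ℕ) = n + (j + 3 * c + 9 * t) := rfl

theorem gr_adj (h : ∀ t ∈ S, ∀ x ∈ el t, x < 3 * q) (hq : q ≤ S.length)
    (a b : Fin (3 * q) ⊕ Fin S.length × Fin 3 × Fin 3) :
    bb (S, q) (num S.length (3 * q) a) (num S.length (3 * q) b) = true ↔
      (gad (cp S q h))ᶜ.Adj a b := by
  have hcut : cut (S, q) = q := min_eq_left hq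
  have hne : (num S.length (3 * q) a : ℕ) = num S.length (3 * q) b ↔ a = b := by
    rw [← Fin.ext_iff, EmbeddingLike.apply_eq_iff_eq]
  have d1 : ∀ (t : Fin S.length) (c j : Fin 3), (3 * q + ((j : ℕ) + 3 * c + 9 * t) - 3 * q) / 9 = t := by
    intro t c j
    omega
  have d2 : ∀ (t : Fin S.length) (c j : Fin 3),
      (3 * q + ((j : ℕ) + 3 * c + 9 * t) - 3 * q) / 3 % 3 = c := by
    intro t c j
    omega
  have d3 : ∀ (t : Fin S.length) (c j : Fin 3),
      (3 * q + ((j : ℕ) + 3 * c + 9 * t) - 3 * q) % 3 = j := by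
    intro t c j
    omega
  have d4 : ∀ (t : Fin S.length) (c j : Fin 3), ¬ (3 * q + ((j : ℕ) + 3 * c + 9 * t) < 3 * q) := by
    intro t c j
    omega
  have j2 : ∀ j : Fin 3, (j : ℕ) = 2 ↔ j = 2 := fun j => by omega
  have hmain : ((r1 (S, q) (num S.length (3 * q) a) (num S.length (3 * q) b) ||
      r1 (S, q) (num S.length (3 * q) b) (num S.length (3 * q) a)) ||
      (r2 (S, q) (num S.length (3 * q) a) (num S.length (3 * q) b) ||
      r2 (S, q) (num S.length (3 * q) b) (num S.length (3 * q) a))) = true ↔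
      (gad (cp S q h)).Adj a b := by
    rcases a with x | ⟨t, c, j⟩
    · rcases b with y | ⟨t', c', j'⟩
      · have hx := x.2
        have hy := y.2
        simp only [num_inl, r1, r2, hcut, hx, hy, decide_true, Bool.not_true, Bool.false_and,
          Bool.and_false, Bool.or_self, Bool.false_eq_true, false_iff]
        exact adj_ll
      · have hx := x.2
        rw [adj_lr]
        simp only [num_inl, num_inr, r1, r2, hcut, hx, d1, d2, d3, d4, decide_true, decide_false,
          Bool.not_true, Bool.not_false, Bool.false_and, Bool.true_and, Bool.and_false,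
          Bool.or_false, Bool.and_eq_true, Bool.not_eq_true', decide_eq_false_iff_not,
          decide_eq_true_eq, j2]
        refine and_congr_right fun _ => ?_
        rw [List.getD_eq_getElem _ _ t'.2, Fin.ext_iff]
        rfl
    · rcases b with y | ⟨t', c', j'⟩
      · have hy := y.2
        rw [adj_rl]
        simp only [num_inl, num_inr, r1, r2, hcut, hy, d1, d2, d3, d4, decide_true, decide_false,
          Bool.not_true, Bool.not_false, Bool.false_and, Bool.true_and, Bool.and_false,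
          Bool.or_false, Bool.false_or, Bool.and_eq_true, Bool.not_eq_true', decide_eq_false_iff_not,
          decide_eq_true_eq, j2]
        refine and_congr_right fun _ => ?_
        rw [List.getD_eq_getElem _ _ t.2, Fin.ext_iff]
        rfl
      · rw [adj_rr]
        simp only [num_inr, r1, r2, hcut, d1, d2, d3, d4, decide_false,
          Bool.not_false, Bool.false_and, Bool.true_and, Bool.or_self,
          Bool.false_or, Bool.and_eq_true, Bool.or_eq_true, Bool.not_eq_true',
          decide_eq_false_iff_not, decide_eq_true_eq, j2, Fin.val_inj]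
        constructor
        · rintro (⟨rfl, h1⟩ | ⟨rfl, h1⟩)
          · exact ⟨rfl, h1⟩
          · refine ⟨rfl, ?_⟩
            rcases h1 with ⟨h1, h2⟩ | ⟨h1, h2, h3⟩
            · exact Or.inl ⟨h1.symm, fun h => h2 h.symm⟩
            · exact Or.inr ⟨fun h => h1 h.symm, h3, h2⟩
        · rintro ⟨rfl, h1⟩
          exact Or.inl ⟨rfl, h1⟩
  rw [SimpleGraph.compl_adj, ← hmain, Ne, ← hne]
  unfold bb
  simp only [Bool.and_eq_true, Bool.not_eq_true', decide_eq_false_iff_not, Bool.not_eq_true]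

/-- The graph of the reduction is the complement of the gadget graph. -/
def grIso (h : ∀ t ∈ S, ∀ x ∈ el t, x < 3 * q) (hq : q ≤ S.length) :
    (gad (cp S q h))ᶜ ≃g gr (S, q) where
  toEquiv := (num S.length (3 * q)).trans (finCongr (by
    unfold nv cut
    rw [min_eq_left hq]))
  map_rel_iff' := fun {a b} => gr_adj h hq a b

theorem OddHoleFree.iso {V W : Type} {G : SimpleGraph V} {H : SimpleGraph W} (e : G ≃g H)
    (h : OddHoleFree G) : OddHoleFree H := fun n hn h4 =>
  ⟨fun f => (h n hn h4).false (f.trans e.symm.toEmbedding)⟩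

theorem colorable_iso {V W : Type} {G : SimpleGraph V} {H : SimpleGraph W} (e : G ≃g H) (k : ℕ) :
    G.Colorable k ↔ H.Colorable k :=
  ⟨fun h => h.of_hom e.symm.toHom, fun h => h.of_hom e.toHom⟩

end

/-- no four pairwise non-adjacent vertices -/
def NoInd4 {V : Type} (G : SimpleGraph V) : Prop :=
  ∀ a b c d, a ≠ b → a ≠ c → a ≠ d → b ≠ c → b ≠ d → c ≠ d →
    G.Adj a b ∨ G.Adj a c ∨ G.Adj a d ∨ G.Adj b c ∨ G.Adj b d ∨ G.Adj c d

theorem NoInd4.iso {V W : Type} {G : SimpleGraph V} {H : SimpleGraph W} (e : G ≃g H)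
    (h : NoInd4 G) : NoInd4 H := by
  intro a b c d h1 h2 h3 h4 h5 h6
  have hi : ∀ {x y : W}, x ≠ y → e.symm x ≠ e.symm y := fun h h' => h (e.symm.injective h')
  have := h (e.symm a) (e.symm b) (e.symm c) (e.symm d) (hi h1) (hi h2) (hi h3) (hi h4) (hi h5)
    (hi h6)
  simpa only [e.symm.map_adj_iff] using this

theorem compl_noInd4 {T X : Type} {comp : T → Fin 3 → X}
    (hinj : ∀ t, Function.Injective (comp t)) : NoInd4 (gad comp)ᶜ := by
  intro a b c d h1 h2 h3 h4 h5 h6
  by_contra h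
  simp only [SimpleGraph.compl_adj, not_or, not_and, not_not] at h
  obtain ⟨k1, k2, k3, k4, k5, k6⟩ := h
  exact no_k4 hinj (k1 h1) (k2 h2) (k3 h3) (k4 h4) (k5 h5) (k6 h6)

/-- Promise: no odd hole, no four pairwise non-adjacent vertices, and a third of the number of
vertices as the number of colours. -/
def Pr (p : FinGraph × ℕ) : Prop :=
  OddHoleFree p.1.graph ∧ NoInd4 p.1.graph ∧ p.1.n = 3 * p.2

/-- Colouring is `NP`-hard on odd-hole-free graphs. -/
theorem hardPr : HardPr Pr (fun p : FinGraph × ℕ => p.1.graph.Colorable p.2) := by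
  refine hardPr_X3C.trans poly_red ?_ ?_
  · rintro ⟨S, q⟩ ⟨h1, _, h3⟩
    have hlt : ∀ t ∈ S, ∀ x ∈ el t, x < 3 * q := fun t ht => (h1 t ht).2
    refine ⟨OddHoleFree.iso (grIso hlt h3)
      (compl_oddHoleFree (cp_inj hlt fun t ht => (h1 t ht).1)), NoInd4.iso (grIso hlt h3)
      (compl_noInd4 (cp_inj hlt fun t ht => (h1 t ht).1)), ?_⟩
    change 3 * cut (S, q) + S.length * 9 = 3 * (cut (S, q) + 3 * S.length)
    ring
  · rintro ⟨S, q⟩ ⟨h1, _, h3⟩
    have hlt : ∀ t ∈ S, ∀ x ∈ el t, x < 3 * q := fun t ht => (h1 t ht).2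
    have hcut : cut (S, q) = q := min_eq_left h3
    change XC S (List.range (3 * q)) ↔ (gr (S, q)).Colorable (cut (S, q) + 3 * S.length)
    rw [xc_iff hlt fun t ht => (h1 t ht).1, ← colorable_iso (grIso hlt h3), hcut]
    refine (colorable_iff (cp_inj hlt fun t ht => (h1 t ht).1) ?_).symm
    rw [Fintype.card_fin, Fintype.card_fin]
    ring

/-- A polynomial-time algorithm which colours odd-hole-free graphs optimally gives `P = NP`. -/
theorem search {A : List Bool → List Bool} (hA : PolyTime A)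
    (hopt : ∀ p : FinGraph × ℕ, Pr p → ∃ c : Fin p.1.n → ℕ, A (bits p.1) = bits (List.ofFn c) ∧
      (((Finset.univ.image c).card : ℕ) : ℕ∞) = p.1.graph.chromaticNumber) :
    ∀ L, InNP L → InP L := by
  intro L hL
  obtain ⟨f, hf, hpr, hLf⟩ := hardPr L hL
  have h1 : PC (fun x : List Bool => x) (bits : FinGraph → List Bool) (fun x => (f x).1) :=
    PC.comp (g := fun p : FinGraph × ℕ => p.1) (f := f) (Poly.fst Poly.id) hf
  have h2 : PolyTime (fun x => bits (f x).1) := by
    obtain ⟨c, p, h⟩ := h1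
    exact PC.toPolyTime ⟨c, p, h⟩
  have h3 : PolyTime (fun x => A (bits (f x).1)) :=
    Pool.Agent.H642R2.TMSim.polyTime_comp hA h2
  let g : List Bool → Bool := fun y =>
    decide (3 * ((unbits (List ℕ) y).getD []).dedup.length ≤ ((unbits (List ℕ) y).getD []).length)
  have hu : Poly (fun y : List Bool => (unbits (List ℕ) y).getD []) :=
    Poly.optGetD poly_unbits (NPC.Poly.const _)
  have hg : Poly g := NPC.Poly.decide_le
    (NPC.Poly.mul (NPC.Poly.const 3) (NPC.Poly.length (Pool.Agent.NPC.H612.poly_dedup hu)))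
    (NPC.Poly.length hu)
  refine ⟨_, polyTime_test h3 hg, fun x => ?_⟩
  obtain ⟨c, h4, h5⟩ := hopt (f x) (hpr x)
  have h6 : (List.ofFn c).dedup.length = (Finset.univ.image c).card := by
    rw [← List.card_toFinset]
    congr 1
    ext y
    simp [List.mem_ofFn]
  rw [hLf x]
  simp only [g, h4, unbits_bits, Option.getD_some, List.cons.injEq, and_true, decide_eq_true_eq,
    List.length_ofFn, h6]
  have h7 := (hpr x).2.2
  rw [← SimpleGraph.chromaticNumber_le_iff_colorable, ← h5, Nat.cast_le]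
  omega

end Pool.Agent.T2H61.Ohf
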